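import Pool.Agent.W289.ZS.Stm

/-! ZS-T3: moving everything down one step at `q` -/

namespace Pool.Agent.W701.ZS

open Finset W289.ZS

universe u v

theorem reach_mul {ι : Type u} {V : Type v} [Fintype ι] [DecidableEq ι] [DecidableEq V]
    (D : Dat ι V) (A : Finset ι) (q : ι) (hq : q ∈ A) (s : (ι → V) → ℕ) (v : ι → V)
    (hv : 0 < D.dep q (v q)) (k : ℕ) : ∀ r : (ι → V) → ℕ,
    Reach D A s (r + Pi.single v (D.p q * k)) → Reach D A s (r + Pi.single (D.down q v) k) := by
  induction k with
  | zero =>
    intro r h
    simpa using h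
  | succ k ih =>
    intro r h
    have h1 : r + Pi.single v (D.p q * (k + 1)) =
        (r + Pi.single v (D.p q * k)) + Pi.single v (D.p q) := by
      rw [Nat.mul_succ, Pi.single_add, add_assoc]
    rw [h1] at h
    have h2 := Reach.step s _ v q h hq hv
    have h3 : r + Pi.single v (D.p q * k) + Pi.single (D.down q v) 1 =
        (r + Pi.single (D.down q v) 1) + Pi.single v (D.p q * k) := by
      rw [add_right_comm]
    rw [h3] at h2
    have h4 := ih _ h2
    have h5 : r + Pi.single (D.down q v) 1 + Pi.single (D.down q v) k =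
        r + Pi.single (D.down q v) (k + 1) := by
      rw [add_assoc, ← Pi.single_add, add_comm 1 k]
    rwa [h5] at h4

theorem reach_trans {ι : Type u} {V : Type v} [Fintype ι] [DecidableEq ι] [DecidableEq V]
    (D : Dat ι V) (A : Finset ι) (s s' s'' : (ι → V) → ℕ) (h : Reach D A s s')
    (h' : Reach D A s' s'') : Reach D A s s'' := by
  induction h' with
  | refl => exact h
  | step r v i _ hi hd ih => exact Reach.step s r v i ih hi hd

theorem transfer : TaskTransfer.{u, v} := by
  intro ι V _ _ _ D A q hD hq Y W
  suffices H : Disjoint Y W → (∀ v ∈ Y, 0 < D.dep q (v q)) →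
      (∀ v ∈ Y, D.down q v ∈ W) →
      ∀ s : (ι → V) → ℕ, ∃ s' : (ι → V) → ℕ, Reach D A s s' ∧ (∀ w ∈ W, s w ≤ s' w) ∧
      cnt W s' = cnt W s + ∑ v ∈ Y, s v / D.p q ∧ ∀ v, v ∉ Y → v ∉ W → s' v = s v by
    intro h1 h2 h3 s
    obtain ⟨s', a, b, c, _⟩ := H h1 h2 h3 s
    exact ⟨s', a, b, c⟩
  induction Y using Finset.induction_on with
  | empty =>
    intro _ _ _ s
    exact ⟨s, Reach.refl s, fun _ _ => le_rfl, by simp, fun _ _ _ => rfl⟩
  | insert a Y ha ih =>
    intro h1 h2 h3 s
    rw [Finset.disjoint_insert_left] at h1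
    obtain ⟨s1, r1, m1, c1, e1⟩ := ih h1.2 (fun v hv => h2 v (Finset.mem_insert_of_mem hv))
      (fun v hv => h3 v (Finset.mem_insert_of_mem hv)) s
    have hsa : s1 a = s a := e1 a ha h1.1
    have haW : D.down q a ∈ W := h3 a (Finset.mem_insert_self _ _)
    set p := D.p q with hp
    set k := s a / p with hk
    set r : (ι → V) → ℕ := fun v => if v = a then s a - p * k else s1 v with hr
    have hpk : p * k ≤ s a := Nat.mul_div_le _ _
    have hs1 : s1 = r + Pi.single a (p * k) := by
      funext v
      by_cases hva : v = a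
      · subst hva
        simp [hr, hsa, Nat.sub_add_cancel hpk]
      · simp [hr, hva]
    have r2 : Reach D A s (r + Pi.single (D.down q a) k) := by
      apply reach_mul D A q hq s a (h2 a (Finset.mem_insert_self _ _)) k r
      rw [← hp, ← hs1]
      exact r1
    have hW : ∀ w ∈ W, r w = s1 w := by
      intro w hw
      have : w ≠ a := by
        rintro rfl
        exact h1.1 hw
      simp [hr, this]
    refine ⟨_, r2, ?_, ?_, ?_⟩
    · intro w hw
      have := m1 w hw
      rw [Pi.add_apply, hW w hw]
      omega
    · have : cnt W (r + Pi.single (D.down q a) k) = cnt W s1 + k := by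
        unfold cnt
        simp only [Pi.add_apply]
        rw [Finset.sum_add_distrib, Finset.sum_congr rfl hW]
        congr 1
        rw [Finset.sum_eq_single_of_mem (D.down q a) haW]
        · simp
        · intro b _ hb
          simp [hb]
      rw [this, c1, Finset.sum_insert ha]
      omega
    · intro v hv hvW
      rw [Finset.mem_insert, not_or] at hv
      have hvd : v ≠ D.down q a := by
        rintro rfl
        exact hvW haW
      simp [hr, hv.1, hvd, e1 v hv.2 hvW]

end Pool.Agent.W701.ZS
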